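import Pool.Agent.Work.MP_46935e_lc.Defs
import Pool.Agent.Work.MP_46935e_lc.Bounded

/-!
# No disjoint coNP pair is complete under reductions of bounded polynomial degree

Let `(A, B)` be a disjoint coNP pair, `k` a natural number, and `H` a function with polynomially
bounded values whose graph is in `NP` (for instance the identity, any polynomial-time function, or
`x ↦ (x, prime factorisation of x)`). Then there is a disjoint coNP pair `(A', B')` which is not
reducible to `(A, B)` by any function `g ∘ H` with `g` computable in time `O(n^k)`. Moreover every
such function fails at an input of length in `[N, r(N)]`, for all large `N` and a fixed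
polynomial `r`.
-/

set_option autoImplicit false

namespace Pool.Agent.Work.MP_46935e_lc.Kept.BoundedReductions

open N68a2faeb N08b01508 Pool.Agent.Work.MP_46935e_lc

theorem result (A B : DecisionProblem) (hAB : IsDisjointCoNPPair A B) (k : ℕ)
    (H : List Bool → List Bool) (hH : HasNPGraph H) :
    ∃ A' B' : DecisionProblem, IsDisjointCoNPPair A' B' ∧
      ∃ r : Polynomial ℕ, ∀ g : List Bool → List Bool, InTimePow k g →
        ∃ N₀ : ℕ, ∀ N ≥ N₀, ∃ x : List Bool,
          N ≤ x.length ∧ x.length ≤ r.eval N ∧ FailsAt (fun x => g (H x)) A' B' A B x :=
  bounded hAB k hH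

end Pool.Agent.Work.MP_46935e_lc.Kept.BoundedReductions
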