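import Pool.Agent.Work.MP_46935e_lc.LD.Main2

/-!
# An oracle with P = Mod_p P and NP = RP but without complete disjoint coNP pairs

For every prime `p` there is an oracle `O` relative to which Mod_p P is contained in P and NP is
contained in RP, but no disjoint coNP pair is complete, not even for Turing reductions in
subexponential time `τ`. For `p = 2` this is an oracle with P = ⊕P.
-/

set_option autoImplicit false

namespace Pool.Agent.Results.MP_46935e_lc.ModPOracle

open Pool.Agent.RO Pool.Agent.LD Filter N68a2faeb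

theorem result (p : ℕ) [Fact p.Prime] (τ : ℕ → ℕ)
    (hτ : ∀ k : ℕ, ∀ᶠ n in atTop, τ n ^ k ≤ 2 ^ n) :
    ∃ O : List Bool → Bool,
      (∀ L ∈ ModPRel p O, IsPolyTimeRel O L) ∧
      (∀ L ∈ NPRel O, L ∈ RPRel O) ∧
      ∀ C D : DecisionProblem, IsDisjointCoNPPairRel O C D →
        ∃ C' D' : DecisionProblem, IsDisjointCoNPPairRel O C' D' ∧
          ¬ PairReducibleRel O C' D' C D ∧ ¬ PairTuringReducibleRel O τ C' D' C D :=
  main_modP p τ hτ

end Pool.Agent.Results.MP_46935e_lc.ModPOracle
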