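import Pool.Agent.Work.MP_46935e_lc.RobustPair

/-!
# Robustness of the existence of complete disjoint coNP pairs

The weakest form of hardness (some total NP search problem such that every disjoint coNP pair has a
separator in `P^g` for non-meagrely many of its solution functions `g`) implies the strongest form of
completeness (all reductions only add a fixed string and padding).
-/

set_option autoImplicit false

namespace Pool.Agent.Results.MP_46935e_lc.Robustness

open N68a2faeb N08b01508 Pool.Agent.Work.MP_46935e_lc

theorem result : List.TFAE [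
    -- (1) a complete disjoint coNP pair exists
    ∃ A B, IsCompleteCoNPPair A B,
    -- (2) completeness under reductions which add a fixed string and padding
    ∃ A B, IsDisjointCoNPPair A B ∧ ∀ C D, IsDisjointCoNPPair C D → ∃ (u : List Bool) (k : ℕ),
      ∀ x, (C x = true → A (padded u k x) = true) ∧ (D x = true → B (padded u k x) = true),
    -- (3) hardness under Turing reductions which may depend on the separator
    ∃ A B, IsDisjointCoNPPair A B ∧ ∀ C D, IsDisjointCoNPPair C D → ∀ S, Separates S A B →
      ∃ L, Separates L C D ∧ PolyTimeInSet S L,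
    -- (4) the same for non-meagrely many separators only
    ∃ A B, IsDisjointCoNPPair A B ∧ ∀ C D, IsDisjointCoNPPair C D →
      ¬ IsMeagre {S : SepSpace A B | ∃ L, Separates L C D ∧ PolyTimeInSet S.1 L},
    -- (5) a total NP search problem to which all disjoint coNP pairs many-one reduce
    ∃ R p, IsTotalNP R p ∧ ∀ C D, IsDisjointCoNPPair C D →
      ∃ (f : List Bool → List Bool) (out : List Bool × List Bool → Bool),
        IsPolyTime f ∧ IsPolyTime out ∧ ∀ x y : List Bool, y.length ≤ p.eval (f x).length →
          R (f x, y) = true → (out (x, y) = true → D x = false) ∧ (out (x, y) = false → C x = false),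
    -- (6) Turing reductions which may depend on the solution function
    ∃ R p, IsTotalNP R p ∧ ∀ C D, IsDisjointCoNPPair C D → ∀ g, Solves g R p →
      ∃ L, Separates L C D ∧ PolyTimeIn g L,
    -- (7) the same for non-meagrely many solution functions only
    ∃ R p, IsTotalNP R p ∧ ∀ C D, IsDisjointCoNPPair C D →
      ¬ IsMeagre {a : SolSpace R p | ∃ L, Separates L C D ∧ PolyTimeIn a.1 L}] := by
  tfae_have 2 → 1 := fun ⟨A, B, h⟩ => ⟨A, B, complete_of_normal h⟩
  tfae_have 1 → 3 := fun ⟨A, B, h⟩ =>
    ⟨A, B, h.1, fun C D hCD S hS => hard_of_complete h hCD hS⟩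
  tfae_have 3 → 4 := by
    rintro ⟨A, B, hAB, h⟩
    refine ⟨A, B, hAB, fun C D hCD => ?_⟩
    have e : {S : SepSpace A B | ∃ L, Separates L C D ∧ PolyTimeInSet S.1 L} = Set.univ :=
      Set.eq_univ_of_forall (fun S => h C D hCD S.1 S.2)
    rw [e]
    refine sep_not_meagre ⟨A, fun x hx => hx, fun x hx => ?_⟩
    by_contra hc
    exact hAB.disjoint x ⟨by simpa using hc, hx⟩
  tfae_have 4 → 2 := fun ⟨A, B, hAB, h⟩ => normal_of_generic_pair hAB h
  tfae_have 1 → 5 := fun ⟨A, B, h⟩ => search_of_complete h
  tfae_have 5 → 6 := by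
    rintro ⟨R, p, hR, h⟩
    refine ⟨R, p, hR, fun C D hCD g hg => ?_⟩
    obtain ⟨f, out, hf, hout, h1⟩ := h C D hCD
    exact turing_of_search hf hout h1 hg
  tfae_have 6 → 7 := by
    rintro ⟨R, p, hR, h⟩
    refine ⟨R, p, hR, fun C D hCD => ?_⟩
    have e : {a : SolSpace R p | ∃ L, Separates L C D ∧ PolyTimeIn a.1 L} = Set.univ :=
      Set.eq_univ_of_forall (fun a => h C D hCD a.1 a.2)
    rw [e]
    have htot := hR.total
    choose g hg using htot
    exact sol_not_meagre ⟨g, hg⟩
  tfae_have 7 → 2 := fun ⟨R, p, hR, h⟩ => normal_of_generic_search hR h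
  tfae_finish

end Pool.Agent.Results.MP_46935e_lc.Robustness
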