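import Pool.Agent.Work.MP_46935e_lc.RobustSeq

/-!
# Complete pairs, complete tuples, complete sequences
-/

set_option autoImplicit false

namespace Pool.Agent.Results.MP_46935e_lc.Tuples

open N68a2faeb N08b01508 Pool.Agent.Work.MP_46935e_lc

theorem result : List.TFAE [
    -- (1) a complete disjoint coNP pair exists
    ∃ A B, IsCompleteCoNPPair A B,
    -- (2) a complete uniformly coNP sequence of pairwise disjoint sets exists
    ∃ 𝒜, IsCompleteCoNPSeq 𝒜,
    -- (3) complete tuples of pairwise disjoint coNP sets of every length exist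
    ∀ k : ℕ, 2 ≤ k → ∃ 𝒜 : Fin k → DecisionProblem, IsCompleteCoNPTuple 𝒜,
    -- (4) a complete tuple of some length exists
    ∃ k : ℕ, 2 ≤ k ∧ ∃ 𝒜 : Fin k → DecisionProblem, IsCompleteCoNPTuple 𝒜] := by
  tfae_have 1 → 2 := fun ⟨A, B, h⟩ => seq_of_complete h
  tfae_have 2 → 3 := fun ⟨𝒜, h⟩ k _ => ⟨_, tuple_of_seq h k⟩
  tfae_have 3 → 4 := fun h => ⟨2, le_rfl, h 2 le_rfl⟩
  tfae_have 4 → 1 := fun ⟨_, hk, _, h⟩ => ⟨_, _, pair_of_tuple hk h⟩
  tfae_finish

end Pool.Agent.Results.MP_46935e_lc.Tuples
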