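import Pool.Agent.Work.MP_46935e_lc.GenDefs
import Pool.Agent.Work.MP_46935e_lc.GenTop

/-!
# No disjoint coNP pair is complete under uniformly generated reductions of size `O(n^k)`

Let `(A, B)` be a disjoint coNP pair, `k` a natural number and `F` a function with polynomially
bounded values whose graph is in `NP`, for instance a polynomial-time evaluator: `F ⟨a, x⟩` is the
value of the circuit `a` at `x`, or of the program `a` run for `|a|` steps on `x`. There are a number
`e` and a disjoint coNP pair `(A', B')` which is not reducible to `(A, B)` by any map
`x ↦ F ⟨h ⟨β_n, 1^n⟩, x⟩`, `n = |x|`, where `h` is any polynomial-time function (or any function with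
`NP` graph) with `|h ⟨β_n, 1^n⟩| = O(n^k)` and `β_n` is arbitrary advice of length `O(n^(1/e))`.
The exponent of the running time of `h` is arbitrary: only the part of the reduction that depends
on the input `x` itself, and not only on its length, has fixed polynomial size.
-/

set_option autoImplicit false

namespace Pool.Agent.Results.MP_46935e_lc.UniformReductions

open N68a2faeb N08b01508 Pool.Agent.Work.MP_46935e_lc

theorem result (A B : DecisionProblem) (hAB : IsDisjointCoNPPair A B)
    (F : List Bool → List Bool) (hF : HasNPGraph F) (k : ℕ) :
    ∃ (e : ℕ) (A' B' : DecisionProblem), IsDisjointCoNPPair A' B' ∧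
      ∀ (h : List Bool → List Bool) (β : ℕ → List Bool), HasNPGraph h → SizeOK h β e k →
        ∀ N : ℕ, ∃ x : List Bool, N ≤ x.length ∧ FailsAt (generated F h β) A' B' A B x :=
  generated_fail hAB hF k

end Pool.Agent.Results.MP_46935e_lc.UniformReductions
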